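import Pool.Agent.H484.HH.Stm

/-!
# Project HH, task MAIN (helper399): deterministic bound from the decomposition into tents
-/

set_option autoImplicit false
set_option linter.unusedVariables false

open Finset

namespace Pool.Agent.H484.HH

namespace MAINaux

variable {N : ℕ} [NeZero N] {t : ℕ}

theorem arc_sum (z : ZMod N) (ℓ : ℕ) (hℓ : ℓ ≤ N) : ∑ m : ZMod N, arc z ℓ m = ℓ := by
  have h1 : ∑ m : ZMod N, arc z ℓ m = ∑ x : ZMod N, (if x.val < ℓ then (1 : ℝ) else 0) := by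
    refine Fintype.sum_equiv (Equiv.subRight z) _ _ fun m => ?_
    rfl
  rw [h1, Finset.sum_boole]
  congr 1
  have h2 : (range ℓ).card = (univ.filter fun x : ZMod N => x.val < ℓ).card := by
    refine Finset.card_nbij' (fun i => (i : ZMod N)) (fun x => x.val) ?_ ?_ ?_ ?_
    · intro i hi
      have hi' : i < ℓ := by simpa using hi
      simp only [coe_filter, mem_univ, true_and, Set.mem_ofPred_eq]
      rw [ZMod.val_cast_of_lt (lt_of_lt_of_le hi' hℓ)]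
      exact hi'
    · intro x hx
      have hx' : x.val < ℓ := by simpa using hx
      simpa using hx'
    · intro i hi
      have hi' : i < ℓ := by simpa using hi
      exact ZMod.val_cast_of_lt (lt_of_lt_of_le hi' hℓ)
    · intro x hx
      exact ZMod.natCast_zmod_val x
  rw [← h2, card_range]

theorem W_nonneg (j : ℕ) (k : ZMod N) : 0 ≤ W j k := by
  unfold W
  positivity

theorem V_nonneg (N : ℕ) {t : ℕ} (j0 : ℕ) (j : Fin t → ℕ) : 0 ≤ V N j0 j := by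
  unfold V
  have : 0 ≤ ∏ i, ((2 : ℝ) ^ j i / N) := Finset.prod_nonneg fun i _ => by positivity
  positivity

/-- the error term of a scale -/
noncomputable def E (h : Fin t → ZMod N) (j0 : ℕ) (j : Fin t → ℕ) : ℝ :=
  V N j0 j * ∑ k ∈ univ.filter (fun k : Fin t → ZMod N => k ≠ 0),
        W j0 (-(∑ i, k i * h i)) * ∏ i, W (j i) (k i)

theorem E_nonneg (h : Fin t → ZMod N) (j0 : ℕ) (j : Fin t → ℕ) : 0 ≤ E h j0 j :=
  mul_nonneg (V_nonneg N j0 j) (Finset.sum_nonneg fun k _ => mul_nonneg (W_nonneg _ _)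
    (Finset.prod_nonneg fun i _ => W_nonneg _ _))

open Classical in
theorem SF_eq (h : Fin t → ZMod N) : SF h = ∑ j ∈ Js N t, ∑ j0 ∈ range (Nat.log 2 N + 1),
    if 1 ≤ 2 * V N j0 j ∨ j0 = Nat.log 2 N then E h j0 j else 0 := by
  unfold SF
  rw [Finset.sum_comm]
  refine Finset.sum_congr rfl fun j _ => Finset.sum_congr rfl fun j0 _ => ?_
  by_cases hc : 1 ≤ 2 * V N j0 j ∨ j0 = Nat.log 2 N
  · rw [if_pos hc, if_pos hc]
    rfl
  · rw [if_neg hc, if_neg hc]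

theorem V_zero_le (j : Fin t → ℕ) (hj : j ∈ Js N t) : V N 0 j ≤ 1 := by
  unfold V
  rw [pow_zero, one_mul]
  refine Finset.prod_le_one (fun i _ => by positivity) fun i _ => ?_
  have hN : (0 : ℝ) < N := by exact_mod_cast NeZero.pos N
  rw [div_le_one hN]
  have h1 := Fintype.mem_piFinset.1 hj i
  rw [mem_range] at h1
  have h2 : 2 ^ j i ≤ N := (Nat.pow_le_pow_right (by norm_num) (by omega)).trans
    (Nat.pow_log_le_self 2 (NeZero.ne N))
  exact_mod_cast h2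

theorem V_succ (N : ℕ) {t : ℕ} (j0 : ℕ) (j : Fin t → ℕ) : V N (j0 + 1) j = 2 * V N j0 j := by
  unfold V
  rw [pow_succ]
  ring

/-- bound for one vector of scales -/
theorem one_scale (hPE : S_PE) (h : Fin t → ZMod N) (F0 P0 : ℕ → ZMod N → ℝ)
    (F : Fin t → ℕ → ZMod N → ℝ)
    (h02 : ∀ j x, 0 ≤ F0 j x)
    (h03 : ∀ j ≤ Nat.log 2 N, ∀ k, ‖ft (F0 j) k‖ ≤ 256 * 2 ^ j * W j k)
    (h04 : ∀ j ≤ Nat.log 2 N, ∀ x, ∑ i ∈ range (j + 1), F0 i x ≤ P0 j x)
    (h05 : ∀ j ≤ Nat.log 2 N, ∀ k, ‖ft (P0 j) k‖ ≤ 256 * 2 ^ j * W j k)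
    (h2 : ∀ i j x, 0 ≤ F i j x)
    (h3 : ∀ i, ∀ j ≤ Nat.log 2 N, ∀ k, ‖ft (F i j) k‖ ≤ 256 * 2 ^ j * W j k)
    (j : Fin t → ℕ) (hj : j ∈ Js N t) :
    |∑ j0 ∈ range (Nat.log 2 N + 1), (∑ m : ZMod N, F0 j0 m * ∏ i, F i (j i) (h i * m) -
        (∑ m, F0 j0 m) * ∏ i, ((∑ m, F i (j i) m) / (N : ℝ)))| ≤
      256 ^ (t + 1) * (1 + ∑ j0 ∈ range (Nat.log 2 N + 1),
        if 1 ≤ 2 * V N j0 j ∨ j0 = Nat.log 2 N then E h j0 j else 0) := by
  classical
  obtain ⟨D, hD⟩ : ∃ D : ℕ → ℝ, D = fun j0 => ∑ m : ZMod N, F0 j0 m * ∏ i, F i (j i) (h i * m) -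
        (∑ m, F0 j0 m) * ∏ i, ((∑ m, F i (j i) m) / (N : ℝ)) := ⟨_, rfl⟩
  have hjL : ∀ i, j i ≤ Nat.log 2 N := fun i => by
    have h1 := Fintype.mem_piFinset.1 hj i
    rw [mem_range] at h1
    omega
  have hN : (0 : ℝ) < N := by exact_mod_cast NeZero.pos N
  have hc0 : (0 : ℝ) < 256 ^ (t + 1) := by positivity
  -- the largest scale with volume at most one
  obtain ⟨js, hjs1, hjs2, hjs3⟩ : ∃ js : ℕ, js ≤ Nat.log 2 N ∧ V N js j ≤ 1 ∧
      ∀ j0, js < j0 → j0 ≤ Nat.log 2 N → 1 < V N j0 j := by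
    obtain ⟨S, hS⟩ : ∃ S : Finset ℕ, S = (range (Nat.log 2 N + 1)).filter fun j0 => V N j0 j ≤ 1 :=
      ⟨_, rfl⟩
    have hne : S.Nonempty := ⟨0, by
      rw [hS, mem_filter, mem_range]
      exact ⟨by omega, V_zero_le j hj⟩⟩
    have hSmem : ∀ x ∈ S, x ≤ Nat.log 2 N ∧ V N x j ≤ 1 := by
      intro x hx
      rw [hS, mem_filter, mem_range] at hx
      exact ⟨by omega, hx.2⟩
    refine ⟨S.max' hne, ?_, ?_, ?_⟩
    · exact (hSmem _ (S.max'_mem hne)).1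
    · exact (hSmem _ (S.max'_mem hne)).2
    · intro j0 h1 h2
      by_contra hcon
      have h3 : j0 ∈ S := by
        rw [hS, mem_filter, mem_range]
        exact ⟨by omega, not_lt.1 hcon⟩
      exact absurd (S.le_max' j0 h3) (by omega)
  have hcond : 1 ≤ 2 * V N js j ∨ js = Nat.log 2 N := by
    by_cases h1 : js = Nat.log 2 N
    · exact Or.inr h1
    · left
      have h2 := hjs3 (js + 1) (by omega) (by omega)
      rw [V_succ] at h2
      exact h2.le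
  -- the sum over the small scales
  have hsmall : |∑ j0 ∈ range (js + 1), D j0| ≤ 256 ^ (t + 1) * (1 + E h js j) := by
    obtain ⟨a, ha⟩ : ∃ a : ℝ, a = ∏ i, ((∑ m, F i (j i) m) / (N : ℝ)) := ⟨_, rfl⟩
    have ha0 : 0 ≤ a := by
      rw [ha]
      exact Finset.prod_nonneg fun i _ => div_nonneg (Finset.sum_nonneg fun m _ => h2 i _ m) hN.le
    have hp0 : ∀ m, 0 ≤ ∏ i, F i (j i) (h i * m) := fun m =>
      Finset.prod_nonneg fun i _ => h2 i _ _
    have e1 : ∑ j0 ∈ range (js + 1), D j0 =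
        ∑ m : ZMod N, (∑ j0 ∈ range (js + 1), F0 j0 m) * ∏ i, F i (j i) (h i * m) -
          (∑ m : ZMod N, ∑ j0 ∈ range (js + 1), F0 j0 m) * a := by
      rw [hD, Finset.sum_sub_distrib, Finset.sum_comm]
      congr 1
      · exact Finset.sum_congr rfl fun m _ => by rw [Finset.sum_mul]
      · rw [ha, Finset.sum_comm, Finset.sum_mul]
    have hG0 : ∀ m, 0 ≤ ∑ j0 ∈ range (js + 1), F0 j0 m := fun m =>
      Finset.sum_nonneg fun j0 _ => h02 j0 m
    have hX0 : 0 ≤ ∑ m : ZMod N, (∑ j0 ∈ range (js + 1), F0 j0 m) * ∏ i, F i (j i) (h i * m) :=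
      Finset.sum_nonneg fun m _ => mul_nonneg (hG0 m) (hp0 m)
    have hY0 : 0 ≤ (∑ m : ZMod N, ∑ j0 ∈ range (js + 1), F0 j0 m) * a :=
      mul_nonneg (Finset.sum_nonneg fun m _ => hG0 m) ha0
    have hX1 : ∑ m : ZMod N, (∑ j0 ∈ range (js + 1), F0 j0 m) * ∏ i, F i (j i) (h i * m) ≤
        ∑ m : ZMod N, P0 js m * ∏ i, F i (j i) (h i * m) :=
      Finset.sum_le_sum fun m _ => mul_le_mul_of_nonneg_right (h04 js hjs1 m) (hp0 m)
    have hY1 : (∑ m : ZMod N, ∑ j0 ∈ range (js + 1), F0 j0 m) * a ≤ (∑ m, P0 js m) * a :=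
      mul_le_mul_of_nonneg_right (Finset.sum_le_sum fun m _ => h04 js hjs1 m) ha0
    obtain ⟨q1, q2⟩ := hPE N t h (P0 js) (fun i => F i (j i)) js j (h05 js hjs1)
      (fun i k => h3 i (j i) (hjL i) k)
    have q1' : |∑ m : ZMod N, P0 js m * ∏ i, F i (j i) (h i * m) - (∑ m, P0 js m) * a| ≤
        256 ^ (t + 1) * E h js j := by
      rw [ha]
      exact q1
    have q2' : |(∑ m, P0 js m) * a| ≤ 256 ^ (t + 1) * V N js j := by
      rw [ha]
      exact q2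
    have q3 : 256 ^ (t + 1) * V N js j ≤ 256 ^ (t + 1) * 1 :=
      mul_le_mul_of_nonneg_left hjs2 hc0.le
    have q4 := abs_le.1 q1'
    have q5 := abs_le.1 q2'
    have q6 : 0 ≤ 256 ^ (t + 1) * E h js j := mul_nonneg hc0.le (E_nonneg h js j)
    rw [e1, abs_le, mul_add]
    constructor <;> linarith [q4.1, q4.2, q5.1, q5.2]
  have hbig : ∀ j0, j0 ≤ Nat.log 2 N → |D j0| ≤ 256 ^ (t + 1) * E h j0 j := by
    intro j0 hj0
    have q1 := (hPE N t h (F0 j0) (fun i => F i (j i)) j0 j (h03 j0 hj0)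
      (fun i k => h3 i (j i) (hjL i) k)).1
    rw [hD]
    exact q1
  have hsplit : range (Nat.log 2 N + 1) = range (js + 1) ∪ Ioc js (Nat.log 2 N) := by
    ext x
    rw [mem_union, mem_range, mem_range, mem_Ioc]
    omega
  have hdisj : Disjoint (range (js + 1)) (Ioc js (Nat.log 2 N)) := by
    rw [Finset.disjoint_left]
    intro x h1 h2
    rw [mem_range] at h1
    rw [mem_Ioc] at h2
    omega
  have hrhs : E h js j + ∑ j0 ∈ Ioc js (Nat.log 2 N), E h j0 j ≤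
      ∑ j0 ∈ range (Nat.log 2 N + 1),
        if 1 ≤ 2 * V N j0 j ∨ j0 = Nat.log 2 N then E h j0 j else 0 := by
    rw [hsplit, Finset.sum_union hdisj]
    refine add_le_add ?_ (Finset.sum_le_sum fun j0 hj0 => ?_)
    · have h1 : E h js j = if 1 ≤ 2 * V N js j ∨ js = Nat.log 2 N then E h js j else 0 := by
        rw [if_pos hcond]
      rw [h1]
      refine Finset.single_le_sum (f := fun j0 =>
        if 1 ≤ 2 * V N j0 j ∨ j0 = Nat.log 2 N then E h j0 j else 0) (fun j0 _ => ?_)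
        (mem_range.2 (Nat.lt_succ_self js))
      split_ifs
      · exact E_nonneg h j0 j
      · exact le_rfl
    · rw [mem_Ioc] at hj0
      have h1 := hjs3 j0 hj0.1 hj0.2
      rw [if_pos (Or.inl (by linarith))]
  have hL : ∑ j0 ∈ range (Nat.log 2 N + 1), D j0 =
      ∑ j0 ∈ range (js + 1), D j0 + ∑ j0 ∈ Ioc js (Nat.log 2 N), D j0 := by
    rw [hsplit, Finset.sum_union hdisj]
  have hgoal : |∑ j0 ∈ range (Nat.log 2 N + 1), D j0| ≤
      256 ^ (t + 1) * (1 + ∑ j0 ∈ range (Nat.log 2 N + 1),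
        if 1 ≤ 2 * V N j0 j ∨ j0 = Nat.log 2 N then E h j0 j else 0) := by
    rw [hL]
    calc |∑ j0 ∈ range (js + 1), D j0 + ∑ j0 ∈ Ioc js (Nat.log 2 N), D j0|
        ≤ |∑ j0 ∈ range (js + 1), D j0| + |∑ j0 ∈ Ioc js (Nat.log 2 N), D j0| := abs_add_le _ _
      _ ≤ 256 ^ (t + 1) * (1 + E h js j) +
          ∑ j0 ∈ Ioc js (Nat.log 2 N), 256 ^ (t + 1) * E h j0 j := by
          refine add_le_add hsmall ((Finset.abs_sum_le_sum_abs _ _).trans
            (Finset.sum_le_sum fun j0 hj0 => hbig j0 (mem_Ioc.1 hj0).2))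
      _ = 256 ^ (t + 1) * (1 + (E h js j + ∑ j0 ∈ Ioc js (Nat.log 2 N), E h j0 j)) := by
          rw [← Finset.mul_sum]
          ring
      _ ≤ _ := mul_le_mul_of_nonneg_left (by linarith) hc0.le
  rw [hD] at hgoal
  exact hgoal

end MAINaux

open MAINaux in
theorem t_MAIN (hDEC : S_DEC) (hPE : S_PE) : S_MAIN := by
  classical
  intro N _ t h z0 ℓ0 z ℓ hℓ0 hℓ
  obtain ⟨F0, P0, h01, h02, h03, h04, h05⟩ := hDEC N z0 ℓ0 hℓ0
  choose F P h1 h2 h3 h4 h5 using fun i => hDEC N (z i) (ℓ i) (hℓ i)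
  have e1 : ∑ m : ZMod N, arc z0 ℓ0 m * ∏ i, arc (z i) (ℓ i) (h i * m) =
      ∑ j ∈ Js N t, ∑ j0 ∈ range (Nat.log 2 N + 1),
        ∑ m : ZMod N, F0 j0 m * ∏ i, F i (j i) (h i * m) := by
    have q1 : ∀ m : ZMod N, arc z0 ℓ0 m * ∏ i, arc (z i) (ℓ i) (h i * m) =
        ∑ j ∈ Js N t, ∑ j0 ∈ range (Nat.log 2 N + 1), F0 j0 m * ∏ i, F i (j i) (h i * m) := by
      intro m
      rw [← h01 m, Finset.prod_congr rfl fun i _ => (h1 i (h i * m)).symm,
        Finset.prod_univ_sum, Finset.sum_mul_sum, Finset.sum_comm]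
      rfl
    rw [Finset.sum_congr rfl fun m _ => q1 m, Finset.sum_comm]
    refine Finset.sum_congr rfl fun j _ => ?_
    rw [Finset.sum_comm]
  have e2 : (ℓ0 : ℝ) * ∏ i, ((ℓ i : ℝ) / N) =
      ∑ j ∈ Js N t, ∑ j0 ∈ range (Nat.log 2 N + 1),
        (∑ m, F0 j0 m) * ∏ i, ((∑ m, F i (j i) m) / (N : ℝ)) := by
    have q1 : (ℓ0 : ℝ) = ∑ j0 ∈ range (Nat.log 2 N + 1), ∑ m, F0 j0 m := by
      rw [← arc_sum z0 ℓ0 hℓ0, Finset.sum_comm]
      exact Finset.sum_congr rfl fun m _ => (h01 m).symm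
    have q2 : ∀ i, (ℓ i : ℝ) / N =
        ∑ j ∈ range (Nat.log 2 N + 1), (∑ m, F i j m) / (N : ℝ) := by
      intro i
      rw [← arc_sum (z i) (ℓ i) (hℓ i), ← Finset.sum_div, Finset.sum_comm]
      congr 1
      exact Finset.sum_congr rfl fun m _ => (h1 i m).symm
    rw [q1, Finset.prod_congr rfl fun i _ => q2 i, Finset.prod_univ_sum, Finset.sum_mul_sum,
      Finset.sum_comm]
    rfl
  rw [e1, e2, ← Finset.sum_sub_distrib]
  have e3 : ∀ j ∈ Js N t, |∑ j0 ∈ range (Nat.log 2 N + 1),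
        ∑ m : ZMod N, F0 j0 m * ∏ i, F i (j i) (h i * m) - ∑ j0 ∈ range (Nat.log 2 N + 1),
        (∑ m, F0 j0 m) * ∏ i, ((∑ m, F i (j i) m) / (N : ℝ))| ≤
      256 ^ (t + 1) * (1 + ∑ j0 ∈ range (Nat.log 2 N + 1),
        if 1 ≤ 2 * V N j0 j ∨ j0 = Nat.log 2 N then E h j0 j else 0) := by
    intro j hj
    rw [← Finset.sum_sub_distrib]
    exact one_scale hPE h F0 P0 F h02 h03 h04 h05 h2 h3 j hj
  refine (Finset.abs_sum_le_sum_abs _ _).trans ((Finset.sum_le_sum e3).trans ?_)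
  rw [← Finset.mul_sum, Finset.sum_add_distrib, ← SF_eq]
  have hcard : ∑ j ∈ Js N t, (1 : ℝ) = ((Nat.log 2 N : ℝ) + 1) ^ t := by
    unfold Js
    rw [Finset.sum_const, Fintype.card_piFinset]
    simp
  rw [hcard]
  have hSF : 0 ≤ SF h := by
    rw [SF_eq]
    refine Finset.sum_nonneg fun j _ => Finset.sum_nonneg fun j0 _ => ?_
    split_ifs
    · exact E_nonneg h j0 j
    · exact le_rfl
  have hc : (0 : ℝ) ≤ 256 ^ (t + 1) * (((Nat.log 2 N : ℝ) + 1) ^ t + SF h) := by positivity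
  linarith

end Pool.Agent.H484.HH
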